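import Mathlib

namespace Pool.Agent.Results.MP_42e384_co.Complete

open Set

/-- The Whitney number `W_k(M)` of the second kind: the number of flats of `M` of rank `k`. -/
noncomputable def whitney {α : Type*} (M : Matroid α) (k : ℕ) : ℕ :=
  {F : Set α | M.IsFlat F ∧ M.eRk F = k}.ncard

/-- The ratio `rho_k(M) = W_k(M)^2 / (W_{k-1}(M) W_{k+1}(M))`. -/
noncomputable def rho {α : Type*} (M : Matroid α) (k : ℕ) : ℚ :=
  (whitney M k : ℚ) ^ 2 / ((whitney M (k - 1) : ℚ) * (whitney M (k + 1) : ℚ))

variable {α : Type*}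

lemma finite_flats (M : Matroid α) [M.Finite] (k : ℕ) :
    {F : Set α | M.IsFlat F ∧ M.eRk F = k}.Finite := by
  refine (M.ground_finite.finite_subsets).subset ?_
  rintro F ⟨hF, -⟩
  exact hF.subset_ground

/-- Every rank up to the rank of `M` is attained by a flat. -/
lemma whitney_pos (M : Matroid α) [M.Finite] {r k : ℕ} (hM : M.eRank = r) (hk : k ≤ r) :
    0 < whitney M k := by
  obtain ⟨B, hB⟩ := M.exists_isBase
  have hBc : B.encard = r := by rw [hB.encard_eq_eRank, hM]
  obtain ⟨I, hIB, hI⟩ := Set.exists_subset_encard_eq (s := B) (k := (k : ℕ∞))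
    (by rw [hBc]; exact_mod_cast hk)
  have hind : M.Indep I := hB.indep.subset hIB
  rw [whitney, Set.ncard_pos (finite_flats M k)]
  refine ⟨M.closure I, M.isFlat_closure I, ?_⟩
  rw [M.eRk_closure_eq, hind.eRk_eq_encard, hI]

/-- The only flat of full rank is the ground set. -/
lemma whitney_top (M : Matroid α) [M.Finite] {r : ℕ} (hM : M.eRank = r) : whitney M r = 1 := by
  have : {F : Set α | M.IsFlat F ∧ M.eRk F = r} = {M.E} := by
    ext F
    simp only [mem_ofPred_eq, mem_singleton_iff]
    constructor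
    · rintro ⟨hF, hr⟩
      have hs : M.Spanning F := by
        rw [Matroid.spanning_iff_eRk_le hF.subset_ground, hM, hr]
      have := hs.closure_eq
      rw [hF.closure] at this
      exact this
    · rintro rfl
      exact ⟨M.ground_isFlat, by rw [← M.eRank_def, hM]⟩
  rw [whitney, this, Set.ncard_singleton]

/-- Key structural step: a colouring of the hyperplanes by `range r` such that every flat of
rank `r - 2` is the intersection of two hyperplanes of different colours. -/
lemma exists_colouring (M : Matroid α) [M.Finite] {s : ℕ} (hM : M.eRank = (s + 2 : ℕ)) :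
    ∃ c : Set α → ℕ, (∀ H, M.IsFlat H → M.eRk H = (s + 1 : ℕ) → c H < s + 2) ∧
      ∀ L, M.IsFlat L → M.eRk L = s → ∃ H₁ H₂, M.IsFlat H₁ ∧ M.eRk H₁ = (s + 1 : ℕ) ∧
        M.IsFlat H₂ ∧ M.eRk H₂ = (s + 1 : ℕ) ∧ H₁ ∩ H₂ = L ∧ c H₂ < c H₁ := by
  classical
  obtain ⟨B, hB⟩ := M.exists_isBase
  have hBc : B.encard = (s + 2 : ℕ) := by rw [hB.encard_eq_eRank, hM]
  have hBfin : B.Finite := Set.finite_of_encard_eq_coe hBc
  have hBn : Nat.card B = s + 2 := by
    have : B.ncard = s + 2 := by
      rw [Set.ncard_def, hBc]; rfl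
    rw [← this]; rfl
  have : Finite B := hBfin
  let e : B ≃ Fin (s + 2) := (Finite.equivFin B).trans (finCongr hBn)
  let b : Fin (s + 2) → α := fun i => (e.symm i : α)
  have hbB : ∀ i, b i ∈ B := fun i => (e.symm i).2
  have hbsurj : ∀ x ∈ B, ∃ i, b i = x := fun x hx => ⟨e ⟨x, hx⟩, by simp [b]⟩
  have hbE : ∀ i, b i ∈ M.E := fun i => hB.subset_ground (hbB i)
  -- a flat of smaller rank misses some basis element
  have hmiss : ∀ F, M.IsFlat F → M.eRk F < (s + 2 : ℕ) → ∃ i, b i ∉ F := by
    intro F hF hr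
    by_contra hcon
    push Not at hcon
    have hsub : B ⊆ F := by
      intro x hx
      obtain ⟨i, rfl⟩ := hbsurj x hx
      exact hcon i
    have h1 := M.eRk_mono hsub
    rw [hB.eRk_eq_eRank, hM] at h1
    exact absurd hr (not_lt.mpr h1)
  let c : Set α → ℕ := fun F => sInf {n : ℕ | ∃ h : n < s + 2, b ⟨n, h⟩ ∉ F}
  have hne : ∀ F, M.IsFlat F → M.eRk F < (s + 2 : ℕ) →
      {n : ℕ | ∃ h : n < s + 2, b ⟨n, h⟩ ∉ F}.Nonempty := by
    intro F hF hr
    obtain ⟨i, hi⟩ := hmiss F hF hr
    exact ⟨i.1, i.2, hi⟩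
  have hlt1 : ((s + 1 : ℕ) : ℕ∞) < (s + 2 : ℕ) := by exact_mod_cast Nat.lt_succ_self _
  have hlt0 : ((s : ℕ) : ℕ∞) < (s + 2 : ℕ) := by exact_mod_cast (by omega)
  refine ⟨c, ?_, ?_⟩
  · intro H hH hr
    obtain ⟨h, -⟩ := Nat.sInf_mem (hne H hH (by rw [hr]; exact hlt1))
    exact h
  · intro L hL hr
    obtain ⟨hi, hbi⟩ := Nat.sInf_mem (hne L hL (by rw [hr]; exact hlt0))
    set i := sInf {n : ℕ | ∃ h : n < s + 2, b ⟨n, h⟩ ∉ L} with hidef
    have hmin : ∀ j, ∀ h : j < s + 2, j < i → b ⟨j, h⟩ ∈ L := by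
      intro j h hj
      by_contra hcon
      exact Nat.notMem_of_lt_sInf hj ⟨h, hcon⟩
    have rank_succ : ∀ x, x ∈ M.E → x ∉ L → M.eRk (M.closure (insert x L)) = (s + 1 : ℕ) := by
      intro x hx hxL
      rw [M.eRk_closure_eq, Matroid.eRk_insert_eq_add_one, hr]
      · norm_num
      · exact ⟨hx, by rwa [hL.closure]⟩
    have hLsub : ∀ x, x ∈ M.E → L ⊆ M.closure (insert x L) := by
      intro x hx
      exact (subset_insert x L).trans (M.subset_closure _ (insert_subset hx hL.subset_ground))
    have hmem : ∀ x, x ∈ M.E → x ∈ M.closure (insert x L) := by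
      intro x hx
      exact (M.subset_closure _ (insert_subset hx hL.subset_ground)) (mem_insert x L)
    set x := b ⟨i, hi⟩ with hx
    have hxE : x ∈ M.E := hbE _
    have hxL : x ∉ L := hbi
    obtain ⟨j, hj⟩ := hmiss (M.closure (insert x L)) (M.isFlat_closure _)
      (by rw [rank_succ x hxE hxL]; exact hlt1)
    set y := b j with hy
    have hyE : y ∈ M.E := hbE _
    have hyL : y ∉ L := fun h => hj (hLsub x hxE h)
    have hx2 : x ∉ M.closure (insert y L) := by
      intro hcon
      have := M.closure_exchange (X := L) (e := x) (f := y) ⟨hcon, by rwa [hL.closure]⟩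
      exact hj this.1
    refine ⟨M.closure (insert x L), M.closure (insert y L), M.isFlat_closure _,
      rank_succ x hxE hxL, M.isFlat_closure _, rank_succ y hyE hyL, ?_, ?_⟩
    · apply Subset.antisymm
      · rintro z ⟨hz1, hz2⟩
        by_contra hzL
        have hzL' : z ∉ M.closure L := by rwa [hL.closure]
        have h1 := M.closure_insert_congr (X := L) (e := z) (f := x) ⟨hz1, hzL'⟩
        have h2 := M.closure_insert_congr (X := L) (e := z) (f := y) ⟨hz2, hzL'⟩
        apply hx2
        rw [← h2, h1]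
        exact hmem x hxE
      · exact subset_inter (hLsub x hxE) (hLsub y hyE)
    · have h2 : c (M.closure (insert y L)) = i := by
        apply le_antisymm
        · exact Nat.sInf_le ⟨hi, hx2⟩
        · by_contra hcon
          push Not at hcon
          obtain ⟨hlt, hnot⟩ := Nat.sInf_mem (hne (M.closure (insert y L)) (M.isFlat_closure _)
            (by rw [rank_succ y hyE hyL]; exact hlt1))
          exact hnot (hLsub y hyE (hmin _ hlt hcon))
      have h1 : i < c (M.closure (insert x L)) := by
        by_contra hcon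
        push Not at hcon
        obtain ⟨hlt, hnot⟩ := Nat.sInf_mem (hne (M.closure (insert x L)) (M.isFlat_closure _)
            (by rw [rank_succ x hxE hxL]; exact hlt1))
        rcases hcon.lt_or_eq with h | h
        · exact hnot (hLsub x hxE (hmin _ hlt h))
        · apply hnot
          have : (⟨sInf {n | ∃ (h : n < s + 2), b ⟨n, h⟩ ∉ M.closure (insert x L)}, hlt⟩ :
              Fin (s + 2)) = ⟨i, hi⟩ := by
            apply Fin.ext; exact h
          rw [this]
          exact hmem x hxE
      omega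

/-- Counting lemma (a Turan type bound for graphs coloured with `r` colours). -/
lemma count_bound {β γ : Type*} [DecidableEq β] (S : Finset β) (T : Finset γ) (c : β → ℕ) (r : ℕ)
    (hc : ∀ a ∈ S, c a < r) (f : γ → β × β)
    (hf : ∀ t ∈ T, (f t).1 ∈ S ∧ (f t).2 ∈ S ∧ c (f t).2 < c (f t).1)
    (hinj : Set.InjOn f T) : 2 * r * T.card ≤ (r - 1) * S.card ^ 2 := by
  classical
  let P := (S ×ˢ S).filter (fun p => c p.2 < c p.1)
  let Q := (S ×ˢ S).filter (fun p => c p.1 < c p.2)
  let R := (S ×ˢ S).filter (fun p => c p.1 = c p.2)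
  have hTP : T.card ≤ P.card := by
    apply Finset.card_le_card_of_injOn f _ hinj
    intro t ht
    obtain ⟨h1, h2, h3⟩ := hf t ht
    simp only [P, Finset.coe_filter, Finset.mem_product, Set.mem_ofPred_eq]
    exact ⟨⟨h1, h2⟩, h3⟩
  have hPQ : P.card = Q.card := by
    apply Finset.card_bij (fun p _ => (p.2, p.1))
    · intro p hp
      simp only [P, Q, Finset.mem_filter, Finset.mem_product] at hp ⊢
      tauto
    · rintro ⟨a, b⟩ _ ⟨a', b'⟩ _ h
      simp only [Prod.mk.injEq] at h ⊢
      tauto
    · rintro ⟨a, b⟩ hp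
      refine ⟨(b, a), ?_, rfl⟩
      simp only [P, Q, Finset.mem_filter, Finset.mem_product] at hp ⊢
      tauto
  have htot : P.card + Q.card + R.card = S.card ^ 2 := by
    have h1 : (S ×ˢ S).card = S.card ^ 2 := by rw [Finset.card_product, sq]
    have h2 := Finset.card_filter_add_card_filter_not (s := S ×ˢ S) (fun p => c p.2 < c p.1)
    have h3 := Finset.card_filter_add_card_filter_not
      (s := (S ×ˢ S).filter (fun p => ¬ c p.2 < c p.1)) (fun p => c p.1 < c p.2)
    have h4 : ((S ×ˢ S).filter (fun p => ¬ c p.2 < c p.1)).filter (fun p => c p.1 < c p.2) = Q := by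
      rw [Finset.filter_filter]
      apply Finset.filter_congr
      intro p _
      constructor
      · exact fun h => h.2
      · intro h; exact ⟨by omega, h⟩
    have h5 : ((S ×ˢ S).filter (fun p => ¬ c p.2 < c p.1)).filter (fun p => ¬ c p.1 < c p.2)
        = R := by
      rw [Finset.filter_filter]
      apply Finset.filter_congr
      intro p _
      constructor
      · intro h; omega
      · intro h; omega
    rw [h4, h5] at h3
    rw [h1] at h2
    change P.card + _ = _ at h2
    omega
  let h : ℕ → ℕ := fun i => (S.filter (fun a => c a = i)).card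
  have hS : ∑ i ∈ Finset.range r, h i = S.card := by
    have := Finset.card_eq_sum_card_fiberwise (f := c) (s := S) (t := Finset.range r)
      (fun a ha => by simpa using hc a ha)
    rw [this]
  have hR : R.card = ∑ i ∈ Finset.range r, h i ^ 2 := by
    have h1 := Finset.card_eq_sum_card_fiberwise (f := fun p : β × β => c p.1) (s := R)
      (t := Finset.range r) (fun p hp => by
        simp only [R, Finset.coe_filter, Finset.mem_product, Set.mem_ofPred_eq] at hp
        simpa using hc _ hp.1.1)
    rw [h1]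
    apply Finset.sum_congr rfl
    intro i _
    have : (R.filter (fun p => c p.1 = i)) =
        (S.filter (fun a => c a = i)) ×ˢ (S.filter (fun a => c a = i)) := by
      ext ⟨a, b⟩
      simp only [R, Finset.mem_filter, Finset.mem_product]
      constructor
      · rintro ⟨⟨⟨ha, hb⟩, hab⟩, hi⟩
        exact ⟨⟨ha, hi⟩, ⟨hb, by omega⟩⟩
      · rintro ⟨⟨ha, hi⟩, ⟨hb, hi'⟩⟩
        exact ⟨⟨⟨ha, hb⟩, by omega⟩, hi⟩
    rw [this, Finset.card_product, sq]
  have hCS : S.card ^ 2 ≤ r * R.card := by
    have := sq_sum_le_card_mul_sum_sq (s := Finset.range r) (f := h)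
    rw [hS, Finset.card_range, ← hR] at this
    exact this
  rcases r with _ | r
  · simp at hCS ⊢
  · simp only [Nat.add_sub_cancel]
    nlinarith [hTP, hPQ, htot, hCS]

/-- Integer form: `2 r W_{r-2} <= (r-1) W_{r-1}^2`. -/
theorem nat_form (M : Matroid α) [M.Finite] {s : ℕ} (hM : M.eRank = (s + 2 : ℕ)) :
    2 * (s + 2) * whitney M s ≤ (s + 1) * whitney M (s + 1) ^ 2 := by
  classical
  obtain ⟨c, hc, hL⟩ := exists_colouring M hM
  choose! H₁ H₂ h1 h2 h3 h4 h5 h6 using hL
  have hfin := finite_flats M (s + 1)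
  have hfin' := finite_flats M s
  have key := count_bound hfin.toFinset hfin'.toFinset c (s + 2)
    (by
      intro H hH
      rw [Set.Finite.mem_toFinset] at hH
      exact hc H hH.1 hH.2)
    (fun L => (H₁ L, H₂ L))
    (by
      intro L hL
      rw [Set.Finite.mem_toFinset] at hL
      obtain ⟨ha, hb⟩ := hL
      simp only [Set.Finite.mem_toFinset, Set.mem_ofPred_eq]
      exact ⟨⟨h1 L ha hb, h2 L ha hb⟩, ⟨h3 L ha hb, h4 L ha hb⟩, h6 L ha hb⟩)
    (by
      intro L hL L' hL' heq
      simp only [Set.Finite.coe_toFinset, Set.mem_ofPred_eq] at hL hL'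
      simp only [Prod.mk.injEq] at heq
      rw [← h5 L hL.1 hL.2, ← h5 L' hL'.1 hL'.2, heq.1, heq.2])
  rw [whitney, whitney, Set.ncard_eq_toFinset_card _ hfin, Set.ncard_eq_toFinset_card _ hfin']
  have : s + 2 - 1 = s + 1 := rfl
  rw [this] at key
  exact key

/-- Independent sets of the uniform matroid: the sets with at most `r` elements. -/
def uniformIndep (n r : ℕ) : IndepMatroid (Fin n) :=
  IndepMatroid.ofFinite (E := Set.univ) Set.finite_univ (fun I => I.ncard ≤ r)
    (by simp)
    (by
      intro I J hJ hIJ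
      exact (Set.ncard_le_ncard hIJ (Set.toFinite J)).trans hJ)
    (by
      intro I J hI hJ hlt
      obtain ⟨e, heJ, heI⟩ := Set.exists_mem_notMem_of_ncard_lt_ncard hlt (Set.toFinite I)
      refine ⟨e, heJ, heI, ?_⟩
      rw [Set.ncard_insert_of_notMem heI (Set.toFinite I)]
      omega)
    (fun I _ => Set.subset_univ I)

/-- The uniform matroid `U_{r,n}` on `Fin n`. -/
def uniform (n r : ℕ) : Matroid (Fin n) := (uniformIndep n r).matroid

lemma uniform_indep {n r : ℕ} {I : Set (Fin n)} : (uniform n r).Indep I ↔ I.ncard ≤ r := Iff.rfl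

lemma uniform_ground (n r : ℕ) : (uniform n r).E = Set.univ := rfl

instance uniform_finite (n r : ℕ) : (uniform n r).Finite := ⟨Set.finite_univ⟩

lemma uniform_eRank {n r : ℕ} (h : r ≤ n) : (uniform n r).eRank = r := by
  obtain ⟨B, hB⟩ := (uniform n r).exists_isBase
  apply le_antisymm
  · rw [← hB.encard_eq_eRank, ← (Set.toFinite B).cast_ncard_eq]
    exact_mod_cast uniform_indep.mp hB.indep
  · obtain ⟨I, -, hI⟩ := Set.exists_subset_encard_eq (s := (Set.univ : Set (Fin n)))
      (k := (r : ℕ∞)) (by rw [Set.encard_univ]; simpa using h)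
    have hind : (uniform n r).Indep I := by
      rw [uniform_indep, Set.ncard_def, hI]; exact le_rfl
    rw [← hI]
    exact hind.encard_le_eRank

lemma uniform_flats {n r k : ℕ} (hk : k < r) :
    {F : Set (Fin n) | (uniform n r).IsFlat F ∧ (uniform n r).eRk F = k} =
      {F : Set (Fin n) | F.ncard = k} := by
  ext F
  simp only [mem_ofPred_eq]
  constructor
  · rintro ⟨-, hr⟩
    by_cases hF : F.ncard ≤ r
    · have hind : (uniform n r).Indep F := uniform_indep.mpr hF
      rw [hind.eRk_eq_encard, ← (Set.toFinite F).cast_ncard_eq] at hr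
      exact_mod_cast hr
    · exfalso
      push Not at hF
      obtain ⟨I, hIF, hI⟩ := Set.exists_subset_encard_eq (s := F)
        (k := (r : ℕ∞)) (by rw [← (Set.toFinite F).cast_ncard_eq]; exact_mod_cast hF.le)
      have hind : (uniform n r).Indep I := by
        rw [uniform_indep, Set.ncard_def, hI]; exact le_rfl
      have := hind.encard_le_eRk_of_subset hIF
      rw [hI, hr] at this
      have : r ≤ k := by exact_mod_cast this
      omega
  · intro hF
    have hind : (uniform n r).Indep F := uniform_indep.mpr (by omega)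
    refine ⟨?_, ?_⟩
    · rw [Matroid.isFlat_iff_closure_eq]
      apply Subset.antisymm
      · intro e he
        by_contra heF
        have h1 : (uniform n r).Indep (insert e F) := by
          rw [uniform_indep, Set.ncard_insert_of_notMem heF (Set.toFinite F)]
          omega
        exact (hind.notMem_closure_iff_of_notMem heF (by rw [uniform_ground]; trivial)).mpr h1 he
      · exact (uniform n r).subset_closure F (by rw [uniform_ground]; exact Set.subset_univ F)
    · rw [hind.eRk_eq_encard, ← (Set.toFinite F).cast_ncard_eq, hF]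

lemma uniform_whitney {n r k : ℕ} (hk : k < r) : whitney (uniform n r) k = n.choose k := by
  rw [whitney, uniform_flats hk]
  have : {F : Set (Fin n) | F.ncard = k} =
      (fun s : Finset (Fin n) => (s : Set (Fin n))) ''
        ((Finset.powersetCard k Finset.univ : Finset (Finset (Fin n))) : Set (Finset (Fin n))) := by
    ext F
    simp only [mem_ofPred_eq, Set.mem_image, Finset.mem_coe, Finset.mem_powersetCard,
      Finset.subset_univ, true_and]
    constructor
    · intro hF
      classical
      refine ⟨F.toFinset, ?_, by simp⟩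
      rw [← hF, Set.ncard_eq_toFinset_card']
    · rintro ⟨s, hs, rfl⟩
      simpa using hs
  rw [this, Set.ncard_image_of_injective _ Finset.coe_injective, Set.ncard_coe_finset,
    Finset.card_powersetCard, Finset.card_univ, Fintype.card_fin]

/-- The value `(k+1)(r-k+1)/(k(r-k))` of `rho_k` at the free matroid of rank `r`. -/
noncomputable def rhoFree (r k : ℕ) : ℚ := (((k : ℚ) + 1) * (r - k + 1)) / ((k : ℚ) * (r - k))

/-- The uniform matroid `U_{r,r+1}` violates the inequality for every `2 <= k <= r - 2`. -/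
theorem uniform_lt {r k : ℕ} (hk2 : 2 ≤ k) (hk : k + 2 ≤ r) :
    rho (uniform (r + 1) r) k < rhoFree r k := by
  obtain ⟨j, rfl⟩ : ∃ j, k = j + 1 := ⟨k - 1, by omega⟩
  obtain ⟨d, rfl⟩ : ∃ d, r = j + 1 + 2 + d := ⟨r - (j + 1 + 2), by omega⟩
  rw [rho, rhoFree]
  rw [uniform_whitney (by omega), uniform_whitney (by omega), uniform_whitney (by omega)]
  have e0 : j + 1 - 1 = j := rfl
  rw [e0]
  have hA : 0 < (j + 1 + 2 + d + 1).choose j := Nat.choose_pos (by omega)
  have hB : 0 < (j + 1 + 2 + d + 1).choose (j + 1) := Nat.choose_pos (by omega)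
  have hC : 0 < (j + 1 + 2 + d + 1).choose (j + 1 + 1) := Nat.choose_pos (by omega)
  have h1 := Nat.choose_succ_right_eq (j + 1 + 2 + d + 1) j
  have h2 := Nat.choose_succ_right_eq (j + 1 + 2 + d + 1) (j + 1)
  have e1 : j + 1 + 2 + d + 1 - j = d + 4 := by omega
  have e2 : j + 1 + 2 + d + 1 - (j + 1) = d + 3 := by omega
  rw [e1] at h1
  rw [e2] at h2
  set A := (j + 1 + 2 + d + 1).choose j
  set B := (j + 1 + 2 + d + 1).choose (j + 1)
  set C := (j + 1 + 2 + d + 1).choose (j + 1 + 1)
  have hA' : (0 : ℚ) < A := by exact_mod_cast hA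
  have hB' : (0 : ℚ) < B := by exact_mod_cast hB
  have hC' : (0 : ℚ) < C := by exact_mod_cast hC
  have h1' : (B : ℚ) * (j + 1) = A * (d + 4) := by exact_mod_cast h1
  have h2' : (C : ℚ) * (j + 1 + 1) = B * (d + 3) := by exact_mod_cast h2
  have hj : (0 : ℚ) ≤ j := by positivity
  have hd : (0 : ℚ) ≤ d := by positivity
  have key : ((B : ℚ) ^ 2) / (A * C) = ((d + 4) * (j + 1 + 1)) / ((j + 1) * (d + 3)) := by
    rw [div_eq_div_iff (by positivity) (by positivity)]
    have h3 : ((B : ℚ) * (j + 1)) * (B * (d + 3)) = (A * (d + 4)) * (C * (j + 1 + 1)) := by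
      rw [h1', ← h2']
    linarith [h3]
  rw [key, div_lt_div_iff₀ (by positivity)]
  · push_cast
    ring_nf
    nlinarith [mul_nonneg hj hd, mul_nonneg hj hj, mul_nonneg (mul_nonneg hj hj) hd]
  · push_cast
    have : (0 : ℚ) < (j + 1) * (d + 2) := by positivity
    have e : ((j : ℚ) + 1) * (j + 1 + 2 + d - (j + 1)) = (j + 1) * (d + 2) := by ring
    rw [e]; exact this

/-- The case `k = r - 1`. -/
theorem top_case {α : Type*} (M : Matroid α) [M.Finite] (r : ℕ) (hr : 3 ≤ r) (hM : M.eRank = r) :
    rhoFree r (r - 1) ≤ rho M (r - 1) := by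
  obtain ⟨s, rfl⟩ : ∃ s, r = s + 2 := ⟨r - 2, by omega⟩
  have h1 := nat_form M hM
  have h2 : whitney M (s + 2) = 1 := whitney_top M hM
  have h3 : 0 < whitney M s := whitney_pos M hM (by omega)
  have e1 : s + 2 - 1 = s + 1 := rfl
  have e2 : s + 1 - 1 = s := rfl
  have e3 : s + 1 + 1 = s + 2 := rfl
  rw [e1, rho, e2, e3, h2, rhoFree]
  have h3' : (0 : ℚ) < whitney M s := by exact_mod_cast h3
  have h1' : (2 : ℚ) * (s + 2) * whitney M s ≤ (s + 1) * whitney M (s + 1) ^ 2 := by
    exact_mod_cast h1
  have hs : (0 : ℚ) < s + 1 := by positivity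
  have e4 : (((s + 1 : ℕ) : ℚ) * (((s + 2 : ℕ) : ℚ) - ((s + 1 : ℕ) : ℚ))) = s + 1 := by
    push_cast; ring
  rw [e4, div_le_div_iff₀ hs (by positivity)]
  push_cast
  nlinarith [h1']

/-- Complete answer: for `r >= 3` and `2 <= k <= r - 1`, the inequality
`rho_k(M) >= (k+1)(r-k+1)/(k(r-k))` holds for all matroids of rank `r` exactly when `k = r - 1`. -/
theorem result (r k : ℕ) (hr : 3 ≤ r) (hk2 : 2 ≤ k) (hkr : k ≤ r - 1) :
    (∀ (α : Type) (M : Matroid α), M.Finite → M.eRank = r →
      (((k : ℚ) + 1) * (r - k + 1)) / ((k : ℚ) * (r - k)) ≤ rho M k) ↔ k = r - 1 := by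
  constructor
  · intro h
    by_contra hne
    have h1 := h (Fin (r + 1)) (uniform (r + 1) r) inferInstance (uniform_eRank (by omega))
    have h2 := uniform_lt (r := r) (k := k) hk2 (by omega)
    exact absurd h1 (not_le.mpr h2)
  · rintro rfl α M hfin hM
    exact top_case M r hr hM

end Pool.Agent.Results.MP_42e384_co.Complete
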