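import Mathlib

namespace Pool.Agent.Results.MP_42e384_co.TopRatio

open Set

/-- The Whitney number `W_k(M)` of the second kind: the number of flats of `M` of rank `k`. -/
noncomputable def whitney {α : Type*} (M : Matroid α) (k : ℕ) : ℕ :=
  {F : Set α | M.IsFlat F ∧ M.eRk F = k}.ncard

/-- The ratio `rho_k(M) = W_k(M)^2 / (W_{k-1}(M) W_{k+1}(M))`. -/
noncomputable def rho {α : Type*} (M : Matroid α) (k : ℕ) : ℚ :=
  (whitney M k : ℚ) ^ 2 / ((whitney M (k - 1) : ℚ) * (whitney M (k + 1) : ℚ))

variable {α : Type*}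

lemma finite_flats (M : Matroid α) [M.Finite] (k : ℕ) :
    {F : Set α | M.IsFlat F ∧ M.eRk F = k}.Finite := by
  refine (M.ground_finite.finite_subsets).subset ?_
  rintro F ⟨hF, -⟩
  exact hF.subset_ground

/-- Every rank up to the rank of `M` is attained by a flat. -/
lemma whitney_pos (M : Matroid α) [M.Finite] {r k : ℕ} (hM : M.eRank = r) (hk : k ≤ r) :
    0 < whitney M k := by
  obtain ⟨B, hB⟩ := M.exists_isBase
  have hBc : B.encard = r := by rw [hB.encard_eq_eRank, hM]
  obtain ⟨I, hIB, hI⟩ := Set.exists_subset_encard_eq (s := B) (k := (k : ℕ∞))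
    (by rw [hBc]; exact_mod_cast hk)
  have hind : M.Indep I := hB.indep.subset hIB
  rw [whitney, Set.ncard_pos (finite_flats M k)]
  refine ⟨M.closure I, M.isFlat_closure I, ?_⟩
  rw [M.eRk_closure_eq, hind.eRk_eq_encard, hI]

/-- The only flat of full rank is the ground set. -/
lemma whitney_top (M : Matroid α) [M.Finite] {r : ℕ} (hM : M.eRank = r) : whitney M r = 1 := by
  have : {F : Set α | M.IsFlat F ∧ M.eRk F = r} = {M.E} := by
    ext F
    simp only [mem_ofPred_eq, mem_singleton_iff]
    constructor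
    · rintro ⟨hF, hr⟩
      have hs : M.Spanning F := by
        rw [Matroid.spanning_iff_eRk_le hF.subset_ground, hM, hr]
      have := hs.closure_eq
      rw [hF.closure] at this
      exact this
    · rintro rfl
      exact ⟨M.ground_isFlat, by rw [← M.eRank_def, hM]⟩
  rw [whitney, this, Set.ncard_singleton]

/-- Key structural step: a colouring of the hyperplanes by `range r` such that every flat of
rank `r - 2` is the intersection of two hyperplanes of different colours. -/
lemma exists_colouring (M : Matroid α) [M.Finite] {s : ℕ} (hM : M.eRank = (s + 2 : ℕ)) :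
    ∃ c : Set α → ℕ, (∀ H, M.IsFlat H → M.eRk H = (s + 1 : ℕ) → c H < s + 2) ∧
      ∀ L, M.IsFlat L → M.eRk L = s → ∃ H₁ H₂, M.IsFlat H₁ ∧ M.eRk H₁ = (s + 1 : ℕ) ∧
        M.IsFlat H₂ ∧ M.eRk H₂ = (s + 1 : ℕ) ∧ H₁ ∩ H₂ = L ∧ c H₂ < c H₁ := by
  classical
  obtain ⟨B, hB⟩ := M.exists_isBase
  have hBc : B.encard = (s + 2 : ℕ) := by rw [hB.encard_eq_eRank, hM]
  have hBfin : B.Finite := Set.finite_of_encard_eq_coe hBc
  have hBn : Nat.card B = s + 2 := by
    have : B.ncard = s + 2 := by
      rw [Set.ncard_def, hBc]; rfl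
    rw [← this]; rfl
  have : Finite B := hBfin
  let e : B ≃ Fin (s + 2) := (Finite.equivFin B).trans (finCongr hBn)
  let b : Fin (s + 2) → α := fun i => (e.symm i : α)
  have hbB : ∀ i, b i ∈ B := fun i => (e.symm i).2
  have hbsurj : ∀ x ∈ B, ∃ i, b i = x := fun x hx => ⟨e ⟨x, hx⟩, by simp [b]⟩
  have hbE : ∀ i, b i ∈ M.E := fun i => hB.subset_ground (hbB i)
  -- a flat of smaller rank misses some basis element
  have hmiss : ∀ F, M.IsFlat F → M.eRk F < (s + 2 : ℕ) → ∃ i, b i ∉ F := by
    intro F hF hr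
    by_contra hcon
    push Not at hcon
    have hsub : B ⊆ F := by
      intro x hx
      obtain ⟨i, rfl⟩ := hbsurj x hx
      exact hcon i
    have h1 := M.eRk_mono hsub
    rw [hB.eRk_eq_eRank, hM] at h1
    exact absurd hr (not_lt.mpr h1)
  let c : Set α → ℕ := fun F => sInf {n : ℕ | ∃ h : n < s + 2, b ⟨n, h⟩ ∉ F}
  have hne : ∀ F, M.IsFlat F → M.eRk F < (s + 2 : ℕ) →
      {n : ℕ | ∃ h : n < s + 2, b ⟨n, h⟩ ∉ F}.Nonempty := by
    intro F hF hr
    obtain ⟨i, hi⟩ := hmiss F hF hr
    exact ⟨i.1, i.2, hi⟩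
  have hlt1 : ((s + 1 : ℕ) : ℕ∞) < (s + 2 : ℕ) := by exact_mod_cast Nat.lt_succ_self _
  have hlt0 : ((s : ℕ) : ℕ∞) < (s + 2 : ℕ) := by exact_mod_cast (by omega)
  refine ⟨c, ?_, ?_⟩
  · intro H hH hr
    obtain ⟨h, -⟩ := Nat.sInf_mem (hne H hH (by rw [hr]; exact hlt1))
    exact h
  · intro L hL hr
    obtain ⟨hi, hbi⟩ := Nat.sInf_mem (hne L hL (by rw [hr]; exact hlt0))
    set i := sInf {n : ℕ | ∃ h : n < s + 2, b ⟨n, h⟩ ∉ L} with hidef
    have hmin : ∀ j, ∀ h : j < s + 2, j < i → b ⟨j, h⟩ ∈ L := by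
      intro j h hj
      by_contra hcon
      exact Nat.notMem_of_lt_sInf hj ⟨h, hcon⟩
    have rank_succ : ∀ x, x ∈ M.E → x ∉ L → M.eRk (M.closure (insert x L)) = (s + 1 : ℕ) := by
      intro x hx hxL
      rw [M.eRk_closure_eq, Matroid.eRk_insert_eq_add_one, hr]
      · norm_num
      · exact ⟨hx, by rwa [hL.closure]⟩
    have hLsub : ∀ x, x ∈ M.E → L ⊆ M.closure (insert x L) := by
      intro x hx
      exact (subset_insert x L).trans (M.subset_closure _ (insert_subset hx hL.subset_ground))
    have hmem : ∀ x, x ∈ M.E → x ∈ M.closure (insert x L) := by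
      intro x hx
      exact (M.subset_closure _ (insert_subset hx hL.subset_ground)) (mem_insert x L)
    set x := b ⟨i, hi⟩ with hx
    have hxE : x ∈ M.E := hbE _
    have hxL : x ∉ L := hbi
    obtain ⟨j, hj⟩ := hmiss (M.closure (insert x L)) (M.isFlat_closure _)
      (by rw [rank_succ x hxE hxL]; exact hlt1)
    set y := b j with hy
    have hyE : y ∈ M.E := hbE _
    have hyL : y ∉ L := fun h => hj (hLsub x hxE h)
    have hx2 : x ∉ M.closure (insert y L) := by
      intro hcon
      have := M.closure_exchange (X := L) (e := x) (f := y) ⟨hcon, by rwa [hL.closure]⟩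
      exact hj this.1
    refine ⟨M.closure (insert x L), M.closure (insert y L), M.isFlat_closure _,
      rank_succ x hxE hxL, M.isFlat_closure _, rank_succ y hyE hyL, ?_, ?_⟩
    · apply Subset.antisymm
      · rintro z ⟨hz1, hz2⟩
        by_contra hzL
        have hzL' : z ∉ M.closure L := by rwa [hL.closure]
        have h1 := M.closure_insert_congr (X := L) (e := z) (f := x) ⟨hz1, hzL'⟩
        have h2 := M.closure_insert_congr (X := L) (e := z) (f := y) ⟨hz2, hzL'⟩
        apply hx2
        rw [← h2, h1]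
        exact hmem x hxE
      · exact subset_inter (hLsub x hxE) (hLsub y hyE)
    · have h2 : c (M.closure (insert y L)) = i := by
        apply le_antisymm
        · exact Nat.sInf_le ⟨hi, hx2⟩
        · by_contra hcon
          push Not at hcon
          obtain ⟨hlt, hnot⟩ := Nat.sInf_mem (hne (M.closure (insert y L)) (M.isFlat_closure _)
            (by rw [rank_succ y hyE hyL]; exact hlt1))
          exact hnot (hLsub y hyE (hmin _ hlt hcon))
      have h1 : i < c (M.closure (insert x L)) := by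
        by_contra hcon
        push Not at hcon
        obtain ⟨hlt, hnot⟩ := Nat.sInf_mem (hne (M.closure (insert x L)) (M.isFlat_closure _)
            (by rw [rank_succ x hxE hxL]; exact hlt1))
        rcases hcon.lt_or_eq with h | h
        · exact hnot (hLsub x hxE (hmin _ hlt h))
        · apply hnot
          have : (⟨sInf {n | ∃ (h : n < s + 2), b ⟨n, h⟩ ∉ M.closure (insert x L)}, hlt⟩ :
              Fin (s + 2)) = ⟨i, hi⟩ := by
            apply Fin.ext; exact h
          rw [this]
          exact hmem x hxE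
      omega

/-- Counting lemma (a Turan type bound for graphs coloured with `r` colours). -/
lemma count_bound {β γ : Type*} [DecidableEq β] (S : Finset β) (T : Finset γ) (c : β → ℕ) (r : ℕ)
    (hc : ∀ a ∈ S, c a < r) (f : γ → β × β)
    (hf : ∀ t ∈ T, (f t).1 ∈ S ∧ (f t).2 ∈ S ∧ c (f t).2 < c (f t).1)
    (hinj : Set.InjOn f T) : 2 * r * T.card ≤ (r - 1) * S.card ^ 2 := by
  classical
  let P := (S ×ˢ S).filter (fun p => c p.2 < c p.1)
  let Q := (S ×ˢ S).filter (fun p => c p.1 < c p.2)
  let R := (S ×ˢ S).filter (fun p => c p.1 = c p.2)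
  have hTP : T.card ≤ P.card := by
    apply Finset.card_le_card_of_injOn f _ hinj
    intro t ht
    obtain ⟨h1, h2, h3⟩ := hf t ht
    simp only [P, Finset.coe_filter, Finset.mem_product, Set.mem_ofPred_eq]
    exact ⟨⟨h1, h2⟩, h3⟩
  have hPQ : P.card = Q.card := by
    apply Finset.card_bij (fun p _ => (p.2, p.1))
    · intro p hp
      simp only [P, Q, Finset.mem_filter, Finset.mem_product] at hp ⊢
      tauto
    · rintro ⟨a, b⟩ _ ⟨a', b'⟩ _ h
      simp only [Prod.mk.injEq] at h ⊢
      tauto
    · rintro ⟨a, b⟩ hp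
      refine ⟨(b, a), ?_, rfl⟩
      simp only [P, Q, Finset.mem_filter, Finset.mem_product] at hp ⊢
      tauto
  have htot : P.card + Q.card + R.card = S.card ^ 2 := by
    have h1 : (S ×ˢ S).card = S.card ^ 2 := by rw [Finset.card_product, sq]
    have h2 := Finset.card_filter_add_card_filter_not (s := S ×ˢ S) (fun p => c p.2 < c p.1)
    have h3 := Finset.card_filter_add_card_filter_not
      (s := (S ×ˢ S).filter (fun p => ¬ c p.2 < c p.1)) (fun p => c p.1 < c p.2)
    have h4 : ((S ×ˢ S).filter (fun p => ¬ c p.2 < c p.1)).filter (fun p => c p.1 < c p.2) = Q := by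
      rw [Finset.filter_filter]
      apply Finset.filter_congr
      intro p _
      constructor
      · exact fun h => h.2
      · intro h; exact ⟨by omega, h⟩
    have h5 : ((S ×ˢ S).filter (fun p => ¬ c p.2 < c p.1)).filter (fun p => ¬ c p.1 < c p.2)
        = R := by
      rw [Finset.filter_filter]
      apply Finset.filter_congr
      intro p _
      constructor
      · intro h; omega
      · intro h; omega
    rw [h4, h5] at h3
    rw [h1] at h2
    change P.card + _ = _ at h2
    omega
  let h : ℕ → ℕ := fun i => (S.filter (fun a => c a = i)).card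
  have hS : ∑ i ∈ Finset.range r, h i = S.card := by
    have := Finset.card_eq_sum_card_fiberwise (f := c) (s := S) (t := Finset.range r)
      (fun a ha => by simpa using hc a ha)
    rw [this]
  have hR : R.card = ∑ i ∈ Finset.range r, h i ^ 2 := by
    have h1 := Finset.card_eq_sum_card_fiberwise (f := fun p : β × β => c p.1) (s := R)
      (t := Finset.range r) (fun p hp => by
        simp only [R, Finset.coe_filter, Finset.mem_product, Set.mem_ofPred_eq] at hp
        simpa using hc _ hp.1.1)
    rw [h1]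
    apply Finset.sum_congr rfl
    intro i _
    have : (R.filter (fun p => c p.1 = i)) =
        (S.filter (fun a => c a = i)) ×ˢ (S.filter (fun a => c a = i)) := by
      ext ⟨a, b⟩
      simp only [R, Finset.mem_filter, Finset.mem_product]
      constructor
      · rintro ⟨⟨⟨ha, hb⟩, hab⟩, hi⟩
        exact ⟨⟨ha, hi⟩, ⟨hb, by omega⟩⟩
      · rintro ⟨⟨ha, hi⟩, ⟨hb, hi'⟩⟩
        exact ⟨⟨⟨ha, hb⟩, by omega⟩, hi⟩
    rw [this, Finset.card_product, sq]
  have hCS : S.card ^ 2 ≤ r * R.card := by
    have := sq_sum_le_card_mul_sum_sq (s := Finset.range r) (f := h)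
    rw [hS, Finset.card_range, ← hR] at this
    exact this
  rcases r with _ | r
  · simp at hCS ⊢
  · simp only [Nat.add_sub_cancel]
    nlinarith [hTP, hPQ, htot, hCS]

/-- Integer form: `2 r W_{r-2} <= (r-1) W_{r-1}^2`. -/
theorem nat_form (M : Matroid α) [M.Finite] {s : ℕ} (hM : M.eRank = (s + 2 : ℕ)) :
    2 * (s + 2) * whitney M s ≤ (s + 1) * whitney M (s + 1) ^ 2 := by
  classical
  obtain ⟨c, hc, hL⟩ := exists_colouring M hM
  choose! H₁ H₂ h1 h2 h3 h4 h5 h6 using hL
  have hfin := finite_flats M (s + 1)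
  have hfin' := finite_flats M s
  have key := count_bound hfin.toFinset hfin'.toFinset c (s + 2)
    (by
      intro H hH
      rw [Set.Finite.mem_toFinset] at hH
      exact hc H hH.1 hH.2)
    (fun L => (H₁ L, H₂ L))
    (by
      intro L hL
      rw [Set.Finite.mem_toFinset] at hL
      obtain ⟨ha, hb⟩ := hL
      simp only [Set.Finite.mem_toFinset, Set.mem_ofPred_eq]
      exact ⟨⟨h1 L ha hb, h2 L ha hb⟩, ⟨h3 L ha hb, h4 L ha hb⟩, h6 L ha hb⟩)
    (by
      intro L hL L' hL' heq
      simp only [Set.Finite.coe_toFinset, Set.mem_ofPred_eq] at hL hL'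
      simp only [Prod.mk.injEq] at heq
      rw [← h5 L hL.1 hL.2, ← h5 L' hL'.1 hL'.2, heq.1, heq.2])
  rw [whitney, whitney, Set.ncard_eq_toFinset_card _ hfin, Set.ncard_eq_toFinset_card _ hfin']
  have : s + 2 - 1 = s + 1 := rfl
  rw [this] at key
  exact key

/-- For every finite matroid of rank `r >= 3` the ratio `rho_{r-1}` is at least
`2 r / (r - 1)`, its value at the free matroid of rank `r`; the case `k = r - 1` of the question. -/
theorem result {α : Type*} (M : Matroid α) [M.Finite] (r : ℕ) (hr : 3 ≤ r) (hM : M.eRank = r) :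
    (2 * r : ℚ) / (r - 1) ≤ rho M (r - 1) := by
  obtain ⟨s, rfl⟩ : ∃ s, r = s + 2 := ⟨r - 2, by omega⟩
  have h1 := nat_form M hM
  have h2 : whitney M (s + 2) = 1 := whitney_top M hM
  have h3 : 0 < whitney M s := whitney_pos M hM (by omega)
  have e1 : s + 2 - 1 = s + 1 := rfl
  have e2 : s + 1 - 1 = s := rfl
  have e3 : s + 1 + 1 = s + 2 := rfl
  rw [e1, rho, e2, e3, h2]
  have h3' : (0 : ℚ) < whitney M s := by exact_mod_cast h3
  have h1' : (2 : ℚ) * (s + 2) * whitney M s ≤ (s + 1) * whitney M (s + 1) ^ 2 := by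
    exact_mod_cast h1
  have hs : (0 : ℚ) < s + 1 := by positivity
  have e4 : (((s + 2 : ℕ) : ℚ) - 1) = s + 1 := by push_cast; ring
  rw [e4, div_le_div_iff₀ hs (by positivity)]
  push_cast
  nlinarith [h1']

end Pool.Agent.Results.MP_42e384_co.TopRatio
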